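import Mathlib
import Pool.Agent.Y377.IR.All

set_option autoImplicit false

/-!
# Integral points given by iterated recurrences are not Zariski dense in log general type

Let `Q` be a form of degree `d > 0` on projective `N`-space over `ℂ` and `H` a group. A family of
points `P h`, `h ∈ H`, of the affine variety `ℙ^N ∖ {Q = 0}` is given by iterated recurrences
(`IteratedOff Q d P`) if the values at `P h` of the generators `x ^ α / Q`, `|α| = d`, of the ring
of regular functions of `ℙ^N ∖ {Q = 0}` belong, as functions of `h`, to a ring of functions on `H`
which is obtained from the constants in finitely many steps of the following kind (`FTow`): to the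
ring `R` the entries of an invertible matrix `X` of functions on `H` and of its inverse are added,
where for every `g ∈ H` the entries of `X(g h) X(h)⁻¹`, as functions of `h`, are in `R`. For the
integers `H = ℤ` these are the iterated linear recurrences, for example `2 ^ (n ^ 2)`, or the
continuants with partial denominators `2 ^ (n ^ 2) + n`; for a general group the first step gives
the matrix coefficients of all finite dimensional representations. So the points of a family need
not come from a finitely generated group, and the heights may grow very fast.

(1) There is a normal subgroup `Nn` of finite index in `H` such that on every coset the family is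
constant or, for each projective algebraic set `V(I)` which contains the points of this coset, all
these points are in the Zariski closure of the images of the nonconstant morphisms from the
punctured line to `V(I) ∖ {Q = 0}`.

(2) If all points of the family lie in `V(I)`, then only finitely many points are outside the
Zariski closure of the images of the nonconstant morphisms `𝔾_m → V(I) ∖ {Q = 0}`.

(3) If the points of the family are Zariski dense in the irreducible closed subvariety `X` of
positive dimension of projective space, then `X ∖ {Q = 0}` is not of log general type: so Lang and
Vojta's conjecture holds for these points of any complement of a hypersurface section.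

The theorem is proved in the library folders `Pool/Agent/Y377/IR`, `Y312/IR`, `Y657/IR`, `Y921/IR`,
`Y987/IR`, `Y523/IR`, `Y737/IR`, `Y495/IR`, `Y68/IR`, `Y401/IR`, `Y529/IR` of the starting
repository, of which no starting hand-in states this part; it is assembled here.
-/

namespace Pool.Agent.Results.MP_26d9ad_nt.IteratedIntegralPoints

open Set MvPolynomial Pool.Agent.Y377.IR
open scoped LinearAlgebra.Projectivization
open Pool.Agent.TH143.GT (FunField)
open Pool.Agent.W602.GT (IsForm LogGeneralType)
open Pool.Agent.W603.GR (OffQ)
open Pool.Agent.TH143.EL (InV)

theorem result (N : ℕ) (H : Type) [Group H] (P : H → ℙ ℂ (Fin (N + 1) → ℂ))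
    (Q : MvPolynomial (Fin (N + 1)) ℂ) (d : ℕ) (hd : 0 < d) (hQ : Q.IsHomogeneous d)
    (hoff : ∀ h, eval (P h).rep Q ≠ 0) (hP : IteratedOff Q d P) :
    -- (1): the points in a coset
    (∃ Nn : Subgroup H, Nn.Normal ∧ Nn.FiniteIndex ∧ ∀ a, CosetAlternativeOff Q Nn P a) ∧
    -- (2): the points outside the closure of the punctured lines
    (∀ I : Ideal (MvPolynomial (Fin (N + 1)) ℂ), (∀ h, InV I (P h)) →
      (Set.range P \ ZClosure (GmPoints I Q)).Finite) ∧
    -- (3): Zariski dense families
    (∀ (p : Ideal (MvPolynomial (Fin (N + 1)) ℂ)) (K : Type) [Field K] [Algebra ℂ K] (w : ℕ)
      (y : Fin (N + 1) → K), FunField p Q K w y → 0 < w → (∀ h, InV p (P h)) →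
      (∀ G : MvPolynomial (Fin (N + 1)) ℂ, IsForm G → (∀ h, eval (P h).rep G = 0) → G ∈ p) →
        ¬ LogGeneralType ℂ K w (OffQ Q d y)) :=
  ⟨cosets_off hd hQ hoff hP, fun _ hI => finite_out_gm hd hQ hoff hP hI,
    fun _ _ _ _ _ _ hy hw hV hden => dense_not_log hd hQ hy hw hoff hP hV hden⟩

end Pool.Agent.Results.MP_26d9ad_nt.IteratedIntegralPoints
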