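import Mathlib
import Pool.Agent.X332.OR.Aff

set_option autoImplicit false

/-!
# Integral points given by linear recurrences whose coefficients run along an orbit

Let `T` be an irreducible affine variety over `ℂ`, of dimension at most `d`, with the prime ideal
`𝔱`, and let `t 0, t 1, t 2, …` be an orbit of a rational map from `T` to `T` such that every proper
closed subset of `T` contains only finitely many terms of the orbit (`Orbit 𝔱 t`; if `T` is a curve,
every orbit with different terms has this property, see (2)). We consider the sequences `f` of complex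
numbers which satisfy a linear recurrence

  `a_0 (t m) f (m) + a_1 (t m) f (m + 1) + … + a_r (t m) f (m + r) = 0` for all `m`

with polynomials `a_k` on `T`, not all zero on `T` (`RecAlong 𝔱 t f`).

(1) Let `V` be an affine variety in affine `N`-space, with the prime ideal `I`, let `x 0, x 1, …` be
a sequence of points of `V` whose affine coordinates are of this kind, and suppose that it is Zariski
dense in `V`. Let `g` be a dominant morphism from `V` to an affine variety `W` in affine `M`-space
with the ideal `J` and the function field `E`, of dimension `v > d` (for instance `W = V` and `g` the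
identity, if `dim V > d`). Then `W` is covered by the images of nonconstant morphisms from the
multiplicative group (`GmCovered`), and `W` is not of log general type: here the prime divisors at
infinity are those at which one of the coordinates has a pole.

So for `V` of log general type and of dimension `> d` (or with a dominant morphism to such a
variety), no sequence of points of this kind, integral or not, is Zariski dense in `V`. This applies
to the sequences of `S`-integral points of `V` over a number field, as in the conjecture of Lang and
Vojta. If `T` is a curve, this includes: `t m = m` (P-recursive sequences), `t m = q ^ m`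
(`q`-holonomic sequences), the infinite orbits of polynomials and rational functions, for instance
`t m = 2 ^ (2 ^ m)`, and the multiples `m P` of a point on an elliptic curve.
-/

namespace Pool.Agent.Results.MP_26d9ad_nt.OrbitIntegralPoints

open MvPolynomial Pool.Agent.X332.OR FF
open Pool.Agent.W602.GT (LogGeneralType)

theorem result (D : ℕ) (𝔱 : Ideal (MvPolynomial (Fin D) ℂ)) (t : ℕ → Fin D → ℂ) :
    -- (1)
    (Orbit 𝔱 t → ∀ d : ℕ, Algebra.trdeg ℂ (MvPolynomial (Fin D) ℂ ⧸ 𝔱) ≤ d →
      ∀ (N : ℕ) (I : Ideal (MvPolynomial (Fin N) ℂ)), I.IsPrime →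
      ∀ x : ℕ → Fin N → ℂ, (∀ j, RecAlong 𝔱 t fun m => x m j) →
        (∀ m, ∀ F ∈ I, eval (x m) F = 0) →
        (∀ F : MvPolynomial (Fin N) ℂ, (∀ m, eval (x m) F = 0) → F ∈ I) →
      ∀ (M : ℕ) (J : Ideal (MvPolynomial (Fin M) ℂ)) (g : Fin M → MvPolynomial (Fin N) ℂ),
        (∀ G, G ∈ J ↔ bind₁ g G ∈ I) →
      ∀ (E : Type) [Field E] [Algebra ℂ E] (v : ℕ) (e : Fin M → E), AffField J E v e → d < v →
        GmCovered e ∧
        ¬ LogGeneralType ℂ E v fun P : Place ℂ E => ∃ i, e i ≠ 0 ∧ P.ord (e i) < 0) ∧
    -- (2)
    (𝔱.IsPrime → Algebra.trdeg ℂ (MvPolynomial (Fin D) ℂ ⧸ 𝔱) ≤ 1 → Function.Injective t →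
      (∀ m, ∀ P ∈ 𝔱, eval (t m) P = 0) →
      (∃ F G : Fin D → MvPolynomial (Fin D) ℂ, (∀ i, G i ∉ 𝔱) ∧
        ∀ m i, t (m + 1) i * eval (t m) (G i) = eval (t m) (F i)) → Orbit 𝔱 t) :=
  ⟨fun ho _ hd _ _ hI _ hx hX hdense _ _ _ hg _ _ _ _ _ he hdv =>
    aff_main (coef_field ho) (coef_tr ho hd) hI (fun j => (hx j).linRec ho) hX hdense hg he hdv,
    fun hp htr ht hmem hstep => orbit_of_curve hp htr ht hmem hstep⟩

end Pool.Agent.Results.MP_26d9ad_nt.OrbitIntegralPoints
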