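import Mathlib
import Pool.Agent.Y902.GN.Cmp

/-!
# Integral points on the complements of hypersurfaces which are sums of few high powers

For all `n`, `m`, `E`, `q` and `ε > 0` there are `R` and `δ > 0` such that for every `Y ≥ 1`, every
degree `d` with `R ≤ d ≤ Y ^ δ`, all integers `u 1, …, u m` of absolute value at most `exp (Y ^ δ)`,
all linear forms `h 1, …, h m` in `n` variables with integer coefficients of absolute value at most
`Y ^ E` and every set `S` of at most `q` prime numbers the following holds for the hypersurfaces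
`D s : ∑ u i * s i * h i ^ d = 0` of `P ^ (n - 1)`, where the `s i` are integers with
`0 < |s i| ≤ Y ^ E`, and their complements `U s`. The `S`-integral points of `U s` of height at most
`Y` are given by the (primitive) vectors `x` of integers of absolute value at most `Y` for which the
value of the form is an `S`-unit.

* There are at most `Y ^ ε` affine subspaces of the affine `n`-space over `ℚ` such that all these
  vectors `x`, for all `s`, lie in one of them on which the form is constant. So all integral points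
  of height at most `Y` of all `U s` lie in the images, contained in `U s`, of at most `Y ^ ε` affine
  spaces.
* At most `Y ^ ε` of these vectors, for all `s` together, do not lie on a rational line of the affine
  `n`-space on which the form is constant (its image in `U s` is a nonconstant image of the affine
  line).
* All `U s` that are Brody hyperbolic together have at most `Y ^ ε` of these `S`-integral points of
  height at most `Y`.

The bounds are uniform in `S`. The conjecture of Lang and Vojta says that the `S`-integral points of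
each hyperbolic `U s` are finite in number; for general linear forms and large `d` the complements
are hyperbolic if `m` is large enough in terms of `n` (Siu and Yeung, Shiffman and Zaidenberg).

The theorem on the affine subspaces is proved in the library folder `Pool/Agent/Y902` (file
`GN/Cmp`) of the starting repository, which no starting hand-in states. Method: a set of points that
are not covered, for `R → ∞` and `δ → 0`, gives in an ultraproduct a set with a prime ideal of
relations with coefficients of polynomial size; the `p`-adic determinant method, with unbounded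
exponents as coefficients, shows that the relations between the terms are stable under the
derivations of the function field.
-/

set_option autoImplicit false

namespace Pool.Agent.Results.MP_26d9ad_nt.PowerSumComplements

/-- the form `∑ a i * (h i) (x) ^ d` of degree `d` with integer coefficients, over any ring -/
def form {R : Type} [CommRing R] {n m : ℕ} (a : Fin m → ℤ) (h : Fin m → Fin n → ℤ) (d : ℕ)
    (x : Fin n → R) : R := ∑ i, (a i : R) * (∑ j, (h i j : R) * x j) ^ d

/-- `z` is a nonzero integer all of whose prime factors are in `S` -/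
def IsSUnit (S : Finset ℕ) (z : ℤ) : Prop :=
  z ≠ 0 ∧ ∀ p : ℕ, p.Prime → (p : ℤ) ∣ z → p ∈ S

/-- the form is constant on a rational line through `x` in the affine space -/
def OnConstantLine {n m : ℕ} (a : Fin m → ℤ) (h : Fin m → Fin n → ℤ) (d : ℕ) (x : Fin n → ℤ) :
    Prop :=
  ∃ y : Fin n → ℤ, y ≠ 0 ∧ ∀ t : ℤ, form a h d (x + t • y) = form a h d x

/-- every holomorphic map from `ℂ` to the complement of the hypersurface in projective space is
constant (such a map is given by holomorphic homogeneous coordinates at which the form has no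
zeros) -/
def HyperbolicComplement {n m : ℕ} (a : Fin m → ℤ) (h : Fin m → Fin n → ℤ) (d : ℕ) : Prop :=
  ∀ f : ℂ → Fin n → ℂ, (∀ j, Differentiable ℂ fun z => f z j) → (∀ z, form a h d (f z) ≠ 0) →
    ∀ z w, ∃ c : ℂ, f z = c • f w

/-- the vectors of integers of absolute value at most `Y` at which, for some `s` with
`0 < |s i| ≤ Y ^ E` such that the form with the coefficients `u i * s i` has the property `P`, the
value of this form is an `S`-unit -/
def IntegralPoints (n m E d Y : ℕ) (u : Fin m → ℤ) (h : Fin m → Fin n → ℤ) (S : Finset ℕ)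
    (P : (Fin m → ℤ) → (Fin n → ℤ) → Prop) : Set (Fin n → ℤ) :=
  {x | (∀ j, |x j| ≤ (Y : ℤ)) ∧ ∃ s : Fin m → ℤ, (∀ i, s i ≠ 0 ∧ |s i| ≤ (Y : ℤ) ^ E) ∧
    IsSUnit S (form (fun i => u i * s i) h d x) ∧ P (fun i => u i * s i) x}

open Pool.Agent.Y902.GN

theorem form_int {n m : ℕ} (u s : Fin m → ℤ) (h : Fin m → Fin n → ℤ) (d : ℕ) (x : Fin n → ℤ) :
    form (fun i => u i * s i) h d x = spF u h d s x := by
  unfold form spF lin
  refine Finset.sum_congr rfl fun i _ => ?_
  simp only [Int.cast_id]
  ring

theorem form_rat {n m : ℕ} (u s : Fin m → ℤ) (h : Fin m → Fin n → ℤ) (d : ℕ) (z : Fin n → ℚ) :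
    form (fun i => u i * s i) h d z = spFQ u h d s z := by
  unfold form spFQ linQ
  refine Finset.sum_congr rfl fun i _ => ?_
  push_cast
  ring

theorem form_cast {n m : ℕ} {R : Type} [CommRing R] (a : Fin m → ℤ) (h : Fin m → Fin n → ℤ)
    (d : ℕ) (x : Fin n → ℤ) : form a h d (fun j => (x j : R)) = ((form a h d x : ℤ) : R) := by
  unfold form
  push_cast
  simp

/-- a nonzero rational vector has a nonzero integral multiple -/
theorem exists_mult {n : ℕ} (v : Fin n → ℚ) (hv : v ≠ 0) :
    ∃ (y : Fin n → ℤ) (c : ℚ), y ≠ 0 ∧ ∀ j, (y j : ℚ) = c * v j := by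
  classical
  obtain ⟨N, hN⟩ : ∃ N : ℕ, N = ∏ j, (v j).den := ⟨_, rfl⟩
  have hN0 : N ≠ 0 := by
    rw [hN]
    exact Finset.prod_ne_zero_iff.2 fun j _ => (v j).den_nz
  have h1 : ∀ j, ∃ z : ℤ, (z : ℚ) = N * v j := by
    intro j
    obtain ⟨e, he⟩ : (v j).den ∣ N := by
      rw [hN]
      exact Finset.dvd_prod_of_mem (fun j => (v j).den) (Finset.mem_univ j)
    refine ⟨e * (v j).num, ?_⟩
    rw [he]
    push_cast
    have h2 : ((v j).den : ℚ) * v j = (v j).num := by
      rw [mul_comm]
      exact Rat.mul_den_eq_num _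
    rw [← h2]
    ring
  choose y hy using h1
  refine ⟨y, N, fun h0 => hv ?_, hy⟩
  funext j
  have h2 := hy j
  rw [h0] at h2
  simp only [Pi.zero_apply, Int.cast_zero] at h2
  have h3 := mul_eq_zero.1 h2.symm
  exact h3.resolve_left (by exact_mod_cast hN0)

/-- hyperbolic complements contain no images of constant lines -/
theorem not_onConstantLine {n m : ℕ} {a : Fin m → ℤ} {h : Fin m → Fin n → ℤ} {d : ℕ} (hd : 1 ≤ d)
    (H : HyperbolicComplement a h d) (x : Fin n → ℤ) (hx : form a h d x ≠ 0) :
    ¬ OnConstantLine a h d x := by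
  rintro ⟨y, hy0, hy⟩
  have hcast : ∀ z : ℤ, form a h d (fun j => (x j : ℂ) + (z : ℂ) * (y j : ℂ)) =
      ((form a h d x : ℤ) : ℂ) := by
    intro z
    rw [← hy z, ← form_cast (R := ℂ)]
    congr 1
    funext j
    simp
  obtain ⟨p, hp⟩ : ∃ p : Polynomial ℂ, ∀ z : ℂ, p.eval z =
      form a h d (fun j => (x j : ℂ) + z * (y j : ℂ)) := by
    refine ⟨∑ i, Polynomial.C (a i : ℂ) * (∑ j, Polynomial.C (h i j : ℂ) *
      (Polynomial.C (x j : ℂ) + Polynomial.X * Polynomial.C (y j : ℂ))) ^ d, fun z => ?_⟩
    unfold form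
    simp [Polynomial.eval_finset_sum]
  have h0 : p - Polynomial.C ((form a h d x : ℤ) : ℂ) = 0 := by
    apply Polynomial.eq_zero_of_infinite_isRoot
    refine Set.Infinite.mono (s := Set.range (Int.cast : ℤ → ℂ)) ?_
      (Set.infinite_range_of_injective Int.cast_injective)
    rintro _ ⟨z, rfl⟩
    show (p - Polynomial.C ((form a h d x : ℤ) : ℂ)).eval (z : ℂ) = 0
    rw [Polynomial.eval_sub, hp, hcast, Polynomial.eval_C, sub_self]
  have hall : ∀ z : ℂ, form a h d (fun j => (x j : ℂ) + z * (y j : ℂ)) =
      ((form a h d x : ℤ) : ℂ) := by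
    intro z
    rw [← hp, sub_eq_zero.1 h0, Polynomial.eval_C]
  have hx' : ((form a h d x : ℤ) : ℂ) ≠ 0 := by exact_mod_cast hx
  obtain ⟨j0, hj0⟩ := Function.ne_iff.1 hy0
  have hj0' : (y j0 : ℂ) ≠ 0 := by
    simp only [Pi.zero_apply] at hj0
    exact_mod_cast hj0
  -- the entire curve is constant, so `y` is a multiple of `x`
  have hconst : ∀ z w : ℂ, ∃ c : ℂ, (fun j => (x j : ℂ) + z * (y j : ℂ)) =
      c • fun j => (x j : ℂ) + w * (y j : ℂ) :=
    H (fun z j => (x j : ℂ) + z * (y j : ℂ)) (fun j => by fun_prop)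
      (fun z => by rw [hall]; exact hx')
  -- choose `z` such that the coordinate `j0` vanishes
  obtain ⟨c, hc⟩ := hconst (-(x j0 : ℂ) / (y j0 : ℂ) + 1) (-(x j0 : ℂ) / (y j0 : ℂ))
  have h1 := congrFun hc j0
  simp only [Pi.smul_apply, smul_eq_mul] at h1
  have e1 : (x j0 : ℂ) + (-(x j0 : ℂ) / (y j0 : ℂ) + 1) * (y j0 : ℂ) = (y j0 : ℂ) := by
    field_simp
    ring
  have e2 : (x j0 : ℂ) + (-(x j0 : ℂ) / (y j0 : ℂ)) * (y j0 : ℂ) = 0 := by
    field_simp
    ring
  rw [e1, e2, mul_zero] at h1
  exact hj0' h1

/-- For all `n`, `m`, `E`, `q` and `ε > 0` there are `R` and `δ > 0` such that for all `Y ≥ 1`, all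
`d` with `R ≤ d ≤ Y ^ δ`, all integers `|u i| ≤ exp (Y ^ δ)`, all linear forms `h i` with integer
coefficients of absolute value at most `Y ^ E` and all sets `S` of at most `q` primes: the
`S`-integral points of height at most `Y` of all complements `U s` lie in at most `Y ^ ε` rational
affine subspaces on which the form is constant; at most `Y ^ ε` of them do not lie on a rational line
on which the form is constant; and all hyperbolic `U s` together have at most `Y ^ ε` of them. -/
theorem result (n m E q : ℕ) (ε : ℝ) (hε : 0 < ε) : ∃ (R : ℕ) (δ : ℝ), 0 < δ ∧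
    ∀ (Y d : ℕ) (u : Fin m → ℤ) (h : Fin m → Fin n → ℤ) (S : Finset ℕ), 1 ≤ Y → R ≤ d →
      (d : ℝ) ≤ (Y : ℝ) ^ δ → (∀ i, ((|u i| : ℤ) : ℝ) ≤ Real.exp ((Y : ℝ) ^ δ)) →
      (∀ i j, |h i j| ≤ (Y : ℤ) ^ E) → S.card ≤ q →
      (∃ L : Finset (AffineSubspace ℚ (Fin n → ℚ)), (L.card : ℝ) ≤ (Y : ℝ) ^ ε ∧
        ∀ (x : Fin n → ℤ) (s : Fin m → ℤ), (∀ j, |x j| ≤ (Y : ℤ)) →
          (∀ i, s i ≠ 0 ∧ |s i| ≤ (Y : ℤ) ^ E) →
          IsSUnit S (form (fun i => u i * s i) h d x) →
          ∃ W ∈ L, (fun j => (x j : ℚ)) ∈ W ∧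
            ∀ z ∈ W, form (fun i => u i * s i) h d z =
              (form (fun i => u i * s i) h d x : ℤ)) ∧
      ((IntegralPoints n m E d Y u h S fun a x => ¬ OnConstantLine a h d x).Finite ∧
        ((IntegralPoints n m E d Y u h S fun a x => ¬ OnConstantLine a h d x).ncard : ℝ) ≤
          (Y : ℝ) ^ ε) ∧
      ((IntegralPoints n m E d Y u h S fun a _ => HyperbolicComplement a h d).Finite ∧
        ((IntegralPoints n m E d Y u h S fun a _ => HyperbolicComplement a h d).ncard : ℝ) ≤
          (Y : ℝ) ^ ε) := by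
  classical
  obtain ⟨R, δ, hδ, H⟩ := cmpl n m E q ε hε
  refine ⟨R + 1, δ, hδ, fun Y d u h S hY hd hdY hu hh hS => ?_⟩
  obtain ⟨L, hL1, hL2⟩ := H Y hY d (by omega) hdY u hu h hh S hS
  have hcov : ∀ (x : Fin n → ℤ) (s : Fin m → ℤ), (∀ j, |x j| ≤ (Y : ℤ)) →
      (∀ i, s i ≠ 0 ∧ |s i| ≤ (Y : ℤ) ^ E) →
      IsSUnit S (form (fun i => u i * s i) h d x) →
      ∃ W ∈ L, (fun j => (x j : ℚ)) ∈ W ∧
        ∀ z ∈ W, form (fun i => u i * s i) h d z = (form (fun i => u i * s i) h d x : ℤ) := by
    intro x s hx hs hu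
    rw [form_int] at hu
    obtain ⟨W, hW, hxW, hz⟩ := hL2 x s hx hs hu
    refine ⟨W, hW, hxW, fun z hzW => ?_⟩
    rw [form_rat, form_int]
    exact hz z hzW
  -- the points that are not on constant lines
  have hmain : (IntegralPoints n m E d Y u h S fun a x => ¬ OnConstantLine a h d x).Finite ∧
      ((IntegralPoints n m E d Y u h S fun a x => ¬ OnConstantLine a h d x).ncard : ℝ) ≤
        (Y : ℝ) ^ ε := by
    obtain ⟨T, hT⟩ : ∃ T, T = IntegralPoints n m E d Y u h S
      fun a x => ¬ OnConstantLine a h d x := ⟨_, rfl⟩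
    rw [← hT]
    have hW : ∀ x : Fin n → ℤ, x ∈ T → ∃ W ∈ L, ∀ z : Fin n → ℚ, z ∈ W ↔
        z = fun j => (x j : ℚ) := by
      intro x hx
      rw [hT] at hx
      obtain ⟨hx1, s, hs, hsu, hno⟩ := hx
      obtain ⟨W, hWL, hxW, hz⟩ := hcov x s hx1 hs hsu
      refine ⟨W, hWL, fun z => ⟨fun hzW => ?_, fun h => h ▸ hxW⟩⟩
      by_contra hne
      apply hno
      obtain ⟨y, c, hy0, hy⟩ := exists_mult (fun j => z j - (x j : ℚ)) (fun h0 => hne (by
        funext j
        have := congrFun h0 j
        simp only [Pi.zero_apply] at this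
        linarith))
      refine ⟨y, hy0, fun t => ?_⟩
      have hmem : (fun j => (((x + t • y) j : ℤ) : ℚ)) ∈ W := by
        have h1 := AffineMap.lineMap_mem (k := ℚ) ((t : ℚ) * c) hxW hzW
        have h2 : AffineMap.lineMap (k := ℚ) (fun j => (x j : ℚ)) z ((t : ℚ) * c) =
            fun j => (((x + t • y) j : ℤ) : ℚ) := by
          funext j
          rw [AffineMap.lineMap_apply]
          simp only [vsub_eq_sub, vadd_eq_add, Pi.add_apply, Pi.smul_apply, Pi.sub_apply,
            smul_eq_mul]
          push_cast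
          rw [hy j]
          ring
        rwa [h2] at h1
      have h3 := hz _ hmem
      rw [form_cast] at h3
      exact_mod_cast h3
    choose! w hw1 hw2 using hW
    have hinj : Set.InjOn w T := by
      intro x hx x' hx' hxx
      have h1 := (hw2 x hx fun j => (x j : ℚ)).2 rfl
      rw [hxx] at h1
      have h2 := (hw2 x' hx' _).1 h1
      funext j
      have := congrFun h2 j
      exact_mod_cast this
    have hmaps : Set.MapsTo w T (L : Set (AffineSubspace ℚ (Fin n → ℚ))) := fun x hx => hw1 x hx
    have hfin : T.Finite := Set.Finite.of_injOn hmaps hinj L.finite_toSet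
    refine ⟨hfin, le_trans ?_ hL1⟩
    have h1 := Set.ncard_le_ncard_of_injOn w hmaps hinj L.finite_toSet
    rw [Set.ncard_coe_finset] at h1
    exact_mod_cast h1
  refine ⟨⟨L, hL1, hcov⟩, hmain, ?_⟩
  have hsub : (IntegralPoints n m E d Y u h S fun a _ => HyperbolicComplement a h d) ⊆
      IntegralPoints n m E d Y u h S fun a x => ¬ OnConstantLine a h d x := by
    rintro x ⟨hx, s, hs, hsu, hyp⟩
    exact ⟨hx, s, hs, hsu, not_onConstantLine (by omega) hyp x hsu.1⟩
  refine ⟨hmain.1.subset hsub, le_trans ?_ hmain.2⟩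
  exact_mod_cast Set.ncard_le_ncard hsub hmain.1

end Pool.Agent.Results.MP_26d9ad_nt.PowerSumComplements
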