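import Mathlib
import Pool.Agent.Y215.AF.LogHull
import Pool.Agent.Y215.AF.LogConv

set_option autoImplicit false

/-!
# Integral points which are sums of few units on affine varieties not dominated by punctured lines

Let `U` be an irreducible closed subvariety of affine `n`-space over a number field `k`, given by
the polynomials `F i`, and let `r` be a natural number. We consider the points of `U` of the form
`∑ u_j V_j`, with `r` terms, where the `u_j` are algebraic numbers with a power in a finitely
generated group `Γ` and the `V_j` are vectors of algebraic numbers: for instance the integral points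
of `U` over a ring of `S`-integers all of whose coordinates are sums of a bounded number of
`S`-units.

(1) Suppose that `U` is not dominated by punctured lines (`GmUniruled`), for example that `U` is of
log general type, of positive dimension. Then there is a proper closed subset `Z = U ∩ {G = 0}`,
which depends only on `U` and `r`, with the following properties.

* (`HeightsOff`) For all finitely generated `Γ` there is a constant `C` such that all points of
  `U ∖ Z` of the form `∑ u_j V_j`, for ALL vectors `V_j`, have height at most `C (1 + h(1 : V))`.
* (`NearOff`) For some explicit `ε > 0`, which depends only on `r` and the degrees of the `F i`, for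
  all finitely generated `Γ` and all `V`, the points of `U ∖ Z` over the algebraic numbers of the
  form `∑ u_j s_j V_j`, with `u_j` with a power in `Γ` and `h(1 : s) < ε`, are finite in number, at
  most `A (1 + h(1 : V)) ^ e` where `A`, `e` do not depend on `V`.
* (`RationalOff`) For every number field `L` and all `Γ` and `B` the `L`-rational points of `U ∖ Z`
  of the form `∑ u_j V_j` with `h(1 : V) ≤ B` are finite in number.
* (`UnitSumOff`) For every number field `L ⊇ k` and every finite set `S` of primes of `L`, the
  points of `U ∖ Z` all of whose coordinates are sums of at most `r` `S`-units of `L` are finite in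
  number.

(2) If `U` is dominated by punctured lines, then for some `r` this fails for every proper closed
subset: even `UnitSumOff` is false.

(3) For every closed subset `U` of affine space over `k`, irreducible or not: there is no nonconstant
morphism from the punctured line to `U` over any number field, as is the case if all subvarieties of
positive dimension of `U` are of log general type, if and only if all this is true without an
exceptional set.

The theorem is proved in the library folder `Pool/Agent/Y215` (files `AF/LogHull`, `AF/LogConv`,
`AF/LogHyp`) of the starting repository, which no starting hand-in states; it is assembled here.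
-/

namespace Pool.Agent.Results.MP_26d9ad_nt.SumsOfUnits

open MvPolynomial Pool.Agent.Y215.AF

theorem result (k : Type) [Field k] [NumberField k] (n N : ℕ)
    (F : Fin N → MvPolynomial (Fin n) k) :
    -- (1), (2): irreducible varieties
    ((Ideal.span (Set.range F)).IsPrime →
      (¬ GmUniruled (Ideal.span (Set.range F)) → ∀ r : ℕ,
        ∃ G : MvPolynomial (Fin n) k, G ∉ Ideal.span (Set.range F) ∧
          HeightsOff F G r ∧ (∃ ε : ℝ, 0 < ε ∧ NearOff ε F G r) ∧ RationalOff F G r ∧
          UnitSumOff F G r) ∧
      (GmUniruled (Ideal.span (Set.range F)) → ∃ r : ℕ,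
        ∀ G : MvPolynomial (Fin n) k, G ∉ Ideal.span (Set.range F) → ¬ UnitSumOff F G r)) ∧
    -- (3): no exceptional set
    [NoGmCurve F,
      ∀ r, HeightsOff F 1 r ∧ (∃ ε : ℝ, 0 < ε ∧ NearOff ε F 1 r) ∧ RationalOff F 1 r,
      ∀ r, UnitSumOff F 1 r].TFAE := by
  classical
  obtain ⟨d, hd1, hd⟩ : ∃ d : ℕ, 1 ≤ d ∧ ∀ i, (F i).totalDegree ≤ d :=
    ⟨∑ i, (F i).totalDegree + 1, by omega, fun i => by
      have := Finset.single_le_sum (f := fun i => (F i).totalDegree) (fun _ _ => Nat.zero_le _)
        (Finset.mem_univ i)
      omega⟩
  have hall : ∀ (G : MvPolynomial (Fin n) k), (∀ r, CurCond F d G r → HeightsOff F G r ∧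
      (∃ ε : ℝ, 0 < ε ∧ NearOff ε F G r) ∧ RationalOff F G r) := by
    intro G r hc
    have h1 : HeightsOff F G r := by
      intro _
      exact heightsOff F d hd G r hc
    refine ⟨h1, ⟨eps d r, eps_pos d r hd1, ?_⟩, ?_⟩
    · intro _
      exact nearOff_main F d hd1 hd G r hc
    · intro _
      exact rationalOff F G r h1
  refine ⟨fun hprime => ⟨fun hnu r => ?_, fun hu => conv_gm F hu⟩, ?_⟩
  · obtain ⟨G1, hG1, hc1⟩ := exists_hyperA (Set.range F) hprime hnu d hd1
      (by rintro _ ⟨i, rfl⟩; exact hd i) r
    obtain ⟨G2, hG2, hc2⟩ := exists_hyperA (Set.range F) hprime hnu d hd1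
      (by rintro _ ⟨i, rfl⟩; exact hd i) (n * r)
    have hcc : ∀ r' G, (∀ (L : Type) [Field L] [Algebra k L] (c : Fin r' → Fin n → L)
        (l : Fin (r' + 1) → ℕ),
        (∀ f ∈ Set.range F, aeval (Pool.Agent.H533R3.SL.cur (homC c) l) (Pool.Agent.W235.RM.hmg d f) = 0) →
        (∃ i i', Pool.Agent.H533R3.SL.cur (homC c) l i * Polynomial.C (∑ j, homC c j i') ≠
          Pool.Agent.H533R3.SL.cur (homC c) l i' * Polynomial.C (∑ j, homC c j i)) →
        aeval (fun i => ∑ j, c j i) G = 0) → CurCond F d G r' := by
      intro r' G h L _ _ c l hz hc
      exact h L c l (by rintro _ ⟨i, rfl⟩; exact hz i) hc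
    have h1 := hcc r G1 hc1
    have h2 := hcc (n * r) G2 hc2
    have hmul : ∀ r' (G G' : MvPolynomial (Fin n) k), CurCond F d G r' →
        CurCond F d (G * G') r' := by
      intro r' G G' h L _ _ c l hz hc
      rw [map_mul, h L c l hz hc, zero_mul]
    have h1' := hmul r G1 G2 h1
    have h2' : CurCond F d (G1 * G2) (n * r) := by
      rw [mul_comm]
      exact hmul (n * r) G2 G1 h2
    obtain ⟨a1, a2, a3⟩ := hall _ r h1'
    obtain ⟨-, -, b3⟩ := hall _ (n * r) h2'
    refine ⟨G1 * G2, ?_, a1, a2, a3, unitSumOff F _ r b3⟩
    intro h
    rcases hprime.mem_or_mem h with h | h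
    · exact hG1 h
    · exact hG2 h
  · tfae_have 1 → 2 := fun h r => hall 1 r (curCond_one F d hd h r)
    tfae_have 2 → 3 := fun h r => unitSumOff F 1 r (h (n * r)).2.2
    tfae_have 3 → 1 := fun h => noGm_of_units F h
    tfae_finish

end Pool.Agent.Results.MP_26d9ad_nt.SumsOfUnits
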